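import Pool.Agent.Helper91.KZ.StT

set_option autoImplicit false

namespace Pool.Agent.Helper52.KZ

open Pool.Agent.Helper91.KZ Polynomial TensorProduct

universe u

noncomputable section

variable {E N : Type u} [Field E] [Field N] [Algebra E N]

/-- the twisted action -/
def croX (a : (N ≃ₐ[E] N) → (N ≃ₐ[E] N) → N) (h0 : ∀ g h, a g h ≠ 0) (g : N ≃ₐ[E] N) :
    ((N ≃ₐ[E] N) → N) ≃+ ((N ≃ₐ[E] N) → N) where
  toFun v k := g (v (g⁻¹ * k)) * a g (g⁻¹ * k)
  invFun w h := g⁻¹ (w (g * h) * (a g h)⁻¹)
  left_inv v := by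
    funext h
    show g⁻¹ (g (v (g⁻¹ * (g * h))) * a g (g⁻¹ * (g * h)) * (a g h)⁻¹) = v h
    rw [inv_mul_cancel_left, mul_assoc, mul_inv_cancel₀ (h0 g h), mul_one]
    show (g⁻¹ * g) (v h) = v h
    rw [inv_mul_cancel]
    rfl
  right_inv w := by
    funext k
    show g (g⁻¹ (w (g * (g⁻¹ * k)) * (a g (g⁻¹ * k))⁻¹)) * a g (g⁻¹ * k) = w k
    have h1 : ∀ z : N, g (g⁻¹ z) = z := by
      intro z
      show (g * g⁻¹) z = z
      rw [mul_inv_cancel]
      rfl
    rw [h1, mul_inv_cancel_left, mul_assoc, inv_mul_cancel₀ (h0 g _), mul_one]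
  map_add' v w := by
    funext k
    show g ((v + w) (g⁻¹ * k)) * a g (g⁻¹ * k) = g (v (g⁻¹ * k)) * a g (g⁻¹ * k) +
      g (w (g⁻¹ * k)) * a g (g⁻¹ * k)
    rw [Pi.add_apply, map_add, add_mul]

theorem croX_apply (a : (N ≃ₐ[E] N) → (N ≃ₐ[E] N) → N) (h0 : ∀ g h, a g h ≠ 0) (g : N ≃ₐ[E] N)
    (v : (N ≃ₐ[E] N) → N) (k : N ≃ₐ[E] N) :
    croX a h0 g v k = g (v (g⁻¹ * k)) * a g (g⁻¹ * k) := rfl

theorem CRO (h1 : ST_CR1.{u}) : ST_CRO.{u} := by
  intro E N _ _ _ _ _ a hZ
  have h0 := hZ.a0
  have hsm : ∀ (g : N ≃ₐ[E] N) (n : N) (v : (N ≃ₐ[E] N) → N),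
      croX a h0 g (n • v) = g n • croX a h0 g v := by
    intro g n v
    funext k
    rw [croX_apply, Pi.smul_apply, Pi.smul_apply, croX_apply, smul_eq_mul, smul_eq_mul, map_mul,
      mul_assoc]
  have hco : ∀ (g h : N ≃ₐ[E] N) (v : (N ≃ₐ[E] N) → N),
      croX a h0 g (croX a h0 h v) = a g h • croX a h0 (g * h) v := by
    intro g h v
    funext k
    rw [croX_apply, croX_apply, Pi.smul_apply, croX_apply, smul_eq_mul]
    have e1 : h⁻¹ * (g⁻¹ * k) = (g * h)⁻¹ * k := by
      rw [mul_inv_rev, mul_assoc]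
    have e2 : g⁻¹ * k = h * ((g * h)⁻¹ * k) := by
      rw [mul_inv_rev, mul_assoc, mul_inv_cancel_left]
    rw [e1, map_mul, mul_assoc]
    have e3 := hZ.co g h ((g * h)⁻¹ * k)
    rw [← e2] at e3
    rw [e3]
    show (g * h) (v ((g * h)⁻¹ * k)) * (a g h * a (g * h) ((g * h)⁻¹ * k)) = _
    ring
  have hfr : Module.finrank N ((N ≃ₐ[E] N) → N) = Module.finrank E N := by
    rw [Module.finrank_fintype_fun_eq_card, ← Nat.card_eq_fintype_card]
    exact IsGalois.card_aut_eq_finrank E N
  have hpos : 0 < Module.finrank E N := Module.finrank_pos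
  obtain ⟨Γ, i1, i2, i, hinj, hE, hcm, hsp, hCS, hMI⟩ := h1 E N ((N ≃ₐ[E] N) → N) (croX a h0) a h0
    hsm hco (by rw [hfr]; exact hpos)
  let modΓ : Module Γ ((N ≃ₐ[E] N) → N) := Module.compHom ((N ≃ₐ[E] N) → N) i
  have hΓ : ∀ (γ : Γ) (v : (N ≃ₐ[E] N) → N), γ • v = i γ v := fun _ _ => rfl
  let T : TW E N Γ :=
    { B := N
      V := (N ≃ₐ[E] N) → N
      R := croX a h0
      U := a
      nt := inferInstance
      nx := fun n x v => by rw [hΓ, hΓ, map_smul]
      nb := fun n b v => smul_comm n b v
      xb := fun x b v => by rw [hΓ, hΓ, map_smul]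
      ee := fun e v => by
        rw [hΓ, hE]
        rfl
      bn := fun n v => rfl
      sm := by
        intro W hN hX
        by_cases hW : W = ⊥
        · exact Or.inl hW
        · right
          have h2 : ∃ w ∈ W, w ≠ 0 := by
            by_contra hcon
            push Not at hcon
            apply hW
            rw [eq_bot_iff]
            intro w hw
            rw [hcon w hw]
            exact AddSubgroup.zero_mem _
          obtain ⟨w, hw, hw0⟩ := h2
          have h3 : ∃ k, w k ≠ 0 := by
            by_contra hcon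
            push Not at hcon
            exact hw0 (funext hcon)
          obtain ⟨k, hk⟩ := h3
          rw [eq_top_iff]
          intro v _
          have h4 : ∀ f ∈ Submodule.span N (Set.range i), f w ∈ W := by
            intro f hf
            refine Submodule.span_induction (p := fun f _ => f w ∈ W) ?_ ?_ ?_ ?_ hf
            · rintro f ⟨γ, rfl⟩
              exact hX γ w hw
            · exact W.zero_mem
            · intro f g _ _ hf hg
              exact W.add_mem hf hg
            · intro n f _ hf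
              exact hN n _ hf
          have h5 := h4 ((LinearMap.proj (R := N) (φ := fun _ : (N ≃ₐ[E] N) => N) k).smulRight
            ((w k)⁻¹ • v)) (hsp _)
          rw [LinearMap.smulRight_apply, LinearMap.proj_apply, smul_smul, mul_inv_cancel₀ hk,
            one_smul] at h5
          exact h5
      full := by
        intro f hfN hfX
        let F : Module.End N ((N ≃ₐ[E] N) → N) :=
          { toFun := f, map_add' := f.map_add, map_smul' := hfN }
        have hF : ∀ v, F v = f v := fun _ => rfl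
        have h2 : ∀ g ∈ Submodule.span N (Set.range i), ∀ v, f (g v) = g (f v) := by
          intro g hg
          refine Submodule.span_induction (p := fun g _ => ∀ v, f (g v) = g (f v)) ?_ ?_ ?_ ?_ hg
          · rintro g ⟨γ, rfl⟩ v
            exact hfX γ v
          · intro v
            exact f.map_zero
          · intro g g' _ _ hg hg' v
            rw [LinearMap.add_apply, f.map_add, hg, hg', LinearMap.add_apply]
          · intro n g _ hg v
            rw [LinearMap.smul_apply, hfN, hg, LinearMap.smul_apply]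
        refine ⟨f (fun _ => 1) 1, fun v => ?_⟩
        have h3 := h2 ((LinearMap.proj (R := N) (φ := fun _ : (N ≃ₐ[E] N) => N) 1).smulRight v)
          (hsp _) (fun _ => 1)
        rw [LinearMap.smulRight_apply, LinearMap.proj_apply, one_smul,
          LinearMap.smulRight_apply, LinearMap.proj_apply] at h3
        exact h3
      rn := hsm
      rx := fun g x v => by
        rw [hΓ, hΓ]
        exact hcm x g v
      co := hco }
  refine ⟨Γ, i1, i2, T, hCS, ⟨h0, fun _ _ => rfl, fun x => ⟨x, rfl⟩, hpos, hfr⟩, ?_⟩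
  rw [← hfr]
  exact hMI

end

end Pool.Agent.Helper52.KZ
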