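import Pool.Agent.Helper91.KZ.StS

set_option autoImplicit false

namespace Pool.Agent.Helper52.KZ

open Pool.Agent.Helper91.KZ Polynomial TensorProduct

universe u

noncomputable section

variable {E M : Type u} [Field E] [Field M] [Algebra E M]

theorem mmi1 (R S T : Type u) [Ring R] [Ring S] [Ring T] [Algebra E R] [Algebra E S] [Algebra E T]
    (r s : ℕ) (h1 : MI E R S r) (h2 : MI E S T s) : MI E R T (r * s) := by
  obtain ⟨hr, ⟨f⟩⟩ := h1
  obtain ⟨hs, ⟨g⟩⟩ := h2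
  refine ⟨Nat.mul_pos hr hs, ⟨?_⟩⟩
  exact ((f.trans (g.mapMatrix)).trans (Matrix.compAlgEquiv (Fin r) (Fin s) T E)).trans
    (Matrix.reindexAlgEquiv E T finProdFinEquiv)

theorem mmi3 (A B K L : Type u) [Ring A] [Ring B] [Ring K] [Ring L] [Algebra E A] [Algebra E B]
    [Algebra E K] [Algebra E L] (r s : ℕ) (h1 : MI E K L r) (h2 : MI E A B s) :
    MI E (K ⊗[E] A) (L ⊗[E] B) (r * s) := by
  obtain ⟨hr, ⟨f⟩⟩ := h1
  obtain ⟨hs, ⟨g⟩⟩ := h2
  refine ⟨Nat.mul_pos hr hs, ⟨?_⟩⟩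
  exact ((Algebra.TensorProduct.congr f g).trans
    (Matrix.kroneckerTMulAlgEquiv (Fin r) (Fin s) E E L B)).trans
    (Matrix.reindexAlgEquiv E _ finProdFinEquiv)

/-- `1 × 1` matrices -/
def oneMat (E M : Type u) [Field E] [Field M] [Algebra E M] : M ≃ₐ[M] Matrix Unit Unit M where
  toFun a := Matrix.of fun _ _ => a
  invFun A := A () ()
  left_inv _ := rfl
  right_inv _ := rfl
  map_mul' a b := by
    ext i j
    simp [Matrix.mul_apply]
  map_add' a b := rfl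
  commutes' a := by
    ext i j
    simp [Matrix.algebraMap_matrix_apply]

theorem mmi2 (A B : Type u) [Ring A] [Ring B] [Algebra E A] [Algebra E B] (r : ℕ)
    (h : MI E A B r) : MI M (M ⊗[E] A) (M ⊗[E] B) r := by
  obtain ⟨hr, ⟨f⟩⟩ := h
  refine ⟨hr, ⟨?_⟩⟩
  exact ((Algebra.TensorProduct.congr (oneMat E M) f).trans
    (Matrix.kroneckerTMulAlgEquiv Unit (Fin r) E M M B)).trans
    (Matrix.reindexAlgEquiv M _ (Equiv.punitProd (Fin r)))

/-- base change in stages, for noncommutative algebras -/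
def cbc (R S T A B : Type u) [Field R] [Field S] [Field T] [Ring A] [Ring B] [Algebra R S]
    [Algebra R T] [Algebra S T] [Algebra R A] [Algebra S A] [Algebra T A] [Algebra R B]
    [IsScalarTower R S A] [IsScalarTower S T A] [IsScalarTower R T A] :
    A ⊗[S] (S ⊗[R] B) ≃ₐ[T] A ⊗[R] B :=
  (Algebra.TensorProduct.assoc R S T A S B).symm.trans
    (Algebra.TensorProduct.congr (Algebra.TensorProduct.rid S T A) AlgEquiv.refl)

theorem mmi4 (A K : Type u) [Ring A] [Ring K] [Algebra E A] [Algebra E K] :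
    Nonempty (M ⊗[E] (K ⊗[E] A) ≃ₐ[M] (M ⊗[E] K) ⊗[M] (M ⊗[E] A)) :=
  ⟨((cbc E M M (M ⊗[E] K) A).trans (Algebra.TensorProduct.assoc E E M M K A)).symm⟩

theorem mmi5 (N : Type u) [Field N] [Algebra E N] [Algebra M N] [IsScalarTower E M N]
    (A B : Type u) [Ring A] [Ring B] [Algebra E A] [Algebra M B] (r : ℕ)
    (h : MI M (M ⊗[E] A) B r) : MI N (N ⊗[E] A) (N ⊗[M] B) r := by
  obtain ⟨hr, ⟨f⟩⟩ := mmi2 (E := M) (M := N) (M ⊗[E] A) B r h
  exact ⟨hr, ⟨(cbc E M N N A).symm.trans f⟩⟩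

theorem mmi6 (A A' B : Type u) [Ring A] [Ring A'] [Ring B] [Algebra E A] [Algebra E A']
    [Algebra E B] (r : ℕ) (h : Nonempty (A ≃ₐ[E] A')) (h2 : MI E A B r) : MI E A' B r := by
  obtain ⟨e⟩ := h
  obtain ⟨hr, ⟨f⟩⟩ := h2
  exact ⟨hr, ⟨e.symm.trans f⟩⟩

theorem MMI : ST_MMI.{u} := fun _ _ _ _ _ =>
  ⟨fun R S T _ _ _ _ _ _ r s h1 h2 => mmi1 R S T r s h1 h2,
    fun A B _ _ _ _ r h => mmi2 A B r h,
    fun A B K L _ _ _ _ _ _ _ _ r s h1 h2 => mmi3 A B K L r s h1 h2,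
    fun A K _ _ _ _ => mmi4 A K,
    fun N _ _ _ _ A B _ _ _ _ r h => mmi5 N A B r h,
    fun A A' B _ _ _ _ _ _ r h h2 => mmi6 A A' B r h h2⟩

end

end Pool.Agent.Helper52.KZ
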