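import Pool.Agent.Helper91.KZ.StL

set_option autoImplicit false

namespace Pool.Agent.Helper52.KZ

open Pool.Agent.Helper91.KZ Polynomial TensorProduct

universe u

noncomputable section

variable {W K : Type u} [Field W] [DivisionRing K] [Algebra W K]

/-- the `k`-th conjugate of the generic element -/
def gg (p : ℕ) (ω : W) (k : ℕ) : (MvPolynomial (Fin p) W)[X] :=
  ∑ l : Fin p, C (MvPolynomial.X l * MvPolynomial.C (ω ^ (k * (l : ℕ)))) * X ^ (l : ℕ)

/-- the product of the first `n` conjugates -/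
def PP (p : ℕ) (ω : W) (n : ℕ) : (MvPolynomial (Fin p) W)[X] :=
  ∏ k ∈ Finset.range n, gg p ω k

theorem gg_comp (p : ℕ) (ω : W) (k : ℕ) :
    (gg p ω k).comp (C (MvPolynomial.C ω) * X) = gg p ω (k + 1) := by
  unfold gg
  rw [Polynomial.sum_comp]
  refine Finset.sum_congr rfl fun l _ => ?_
  rw [Polynomial.mul_comp, Polynomial.C_comp, Polynomial.pow_comp, Polynomial.X_comp, mul_pow,
    ← mul_assoc, ← map_pow, ← map_mul, mul_assoc (MvPolynomial.X l), ← map_pow, ← map_mul,
    ← pow_add]
  have e : k * (l : ℕ) + (l : ℕ) = (k + 1) * (l : ℕ) := by ring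
  rw [e]

theorem gg_per (p : ℕ) (ω : W) (h : ω ^ p = 1) : gg p ω p = gg p ω 0 := by
  unfold gg
  refine Finset.sum_congr rfl fun l _ => ?_
  rw [pow_mul, h, one_pow, Nat.zero_mul, pow_zero]

theorem shift_prod {A : Type u} [CommMonoid A] (g : ℕ → A) (p : ℕ) (h : g p = g 0) :
    ∏ k ∈ Finset.range p, g (k + 1) = ∏ k ∈ Finset.range p, g k := by
  cases p with
  | zero => rfl
  | succ q => rw [Finset.prod_range_succ, h, Finset.prod_range_succ']

theorem PP_comp (p : ℕ) (ω : W) (h : ω ^ p = 1) :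
    (PP p ω p).comp (C (MvPolynomial.C ω) * X) = PP p ω p := by
  unfold PP
  rw [Polynomial.prod_comp]
  rw [Finset.prod_congr rfl fun k _ => gg_comp p ω k]
  exact shift_prod (fun k => gg p ω k) p (gg_per p ω h)

theorem PP_coeff (p : ℕ) (ω : W) (h : IsPrimitiveRoot ω p) (m : ℕ) (hm : ¬ p ∣ m) :
    (PP p ω p).coeff m = 0 := by
  have h1 := congrArg (fun Q => Polynomial.coeff Q m) (PP_comp p ω h.pow_eq_one)
  simp only [Polynomial.comp_C_mul_X_coeff] at h1
  have h2 : (PP p ω p).coeff m * (MvPolynomial.C (ω ^ m) - 1) = 0 := by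
    rw [mul_sub, mul_one, map_pow, h1, sub_self]
  rcases mul_eq_zero.1 h2 with h3 | h3
  · exact h3
  · exfalso
    apply hm
    apply h.dvd_of_pow_eq_one
    have h4 : (MvPolynomial.C (ω ^ m) : MvPolynomial (Fin p) W) = MvPolynomial.C 1 := by
      rw [map_one]
      exact sub_eq_zero.1 h3
    exact MvPolynomial.C_injective (Fin p) W h4

theorem gg_hom (p : ℕ) (ω : W) (k m : ℕ) : ((gg p ω k).coeff m).IsHomogeneous 1 := by
  unfold gg
  rw [Polynomial.finsetSum_coeff]
  refine MvPolynomial.IsHomogeneous.sum _ _ _ fun l _ => ?_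
  rw [Polynomial.coeff_C_mul, Polynomial.coeff_X_pow]
  split_ifs with h
  · rw [mul_one]
    exact (MvPolynomial.isHomogeneous_X W l).mul (MvPolynomial.isHomogeneous_C (Fin p) _)
  · rw [mul_zero]
    exact MvPolynomial.isHomogeneous_zero _ _ _

theorem PP_hom (p : ℕ) (ω : W) (n : ℕ) : ∀ m, ((PP p ω n).coeff m).IsHomogeneous n := by
  induction n with
  | zero =>
    intro m
    unfold PP
    rw [Finset.prod_range_zero, Polynomial.coeff_one]
    split_ifs with h
    · exact MvPolynomial.isHomogeneous_one _ _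
    · exact MvPolynomial.isHomogeneous_zero _ _ _
  | succ n ih =>
    intro m
    have e : PP p ω (n + 1) = PP p ω n * gg p ω n := Finset.prod_range_succ _ _
    rw [e, Polynomial.coeff_mul]
    exact MvPolynomial.IsHomogeneous.sum _ _ _ fun ij _ => (ih ij.1).mul (gg_hom p ω n ij.2)

/-- the conjugates in `K` -/
def ff (p : ℕ) (ω : W) (c : Fin p → W) (x : K) (k : ℕ) : K :=
  ∑ l : Fin p, algebraMap W K (c l * ω ^ (k * (l : ℕ))) * x ^ (l : ℕ)

theorem ff_eq (p : ℕ) (ω : W) (c : Fin p → W) (x : K) (k : ℕ) :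
    aeval x ((gg p ω k).map (MvPolynomial.eval c)) = ff p ω c x k := by
  unfold gg ff
  rw [Polynomial.map_sum, map_sum]
  refine Finset.sum_congr rfl fun l _ => ?_
  rw [Polynomial.map_mul, Polynomial.map_C, Polynomial.map_pow, Polynomial.map_X, map_mul,
    aeval_C, map_pow (aeval x) X, aeval_X, map_mul (MvPolynomial.eval c), MvPolynomial.eval_X,
    MvPolynomial.eval_C]

theorem y_pow_x (ω : W) (x y : K) (h : y * x = algebraMap W K ω * (x * y)) (n l : ℕ) :
    y ^ n * x ^ l = algebraMap W K (ω ^ (n * l)) * (x ^ l * y ^ n) := by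
  have h1 : ∀ l, y * x ^ l = algebraMap W K (ω ^ l) * (x ^ l * y) := by
    intro l
    induction l with
    | zero => simp
    | succ l ih =>
      rw [pow_succ, ← mul_assoc, ih, mul_assoc, mul_assoc, h, map_pow, map_pow, pow_succ]
      have c1 := Algebra.commutes (R := W) (A := K) ω (x ^ l)
      calc (algebraMap W K ω) ^ l * (x ^ l * ((algebraMap W K ω) * (x * y)))
          = (algebraMap W K ω) ^ l * ((x ^ l * (algebraMap W K ω)) * (x * y)) := by
            simp only [mul_assoc]
        _ = (algebraMap W K ω) ^ l * (((algebraMap W K ω) * x ^ l) * (x * y)) := by rw [c1]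
        _ = (algebraMap W K ω) ^ l * (algebraMap W K ω) * (x ^ l * x * y) := by
            simp only [mul_assoc]
  induction n with
  | zero => simp
  | succ n ih =>
    rw [pow_succ', mul_assoc, ih]
    have c1 := Algebra.commutes (R := W) (A := K) (ω ^ (n * l)) y
    calc y * (algebraMap W K (ω ^ (n * l)) * (x ^ l * y ^ n))
        = (y * algebraMap W K (ω ^ (n * l))) * (x ^ l * y ^ n) := by rw [mul_assoc]
      _ = (algebraMap W K (ω ^ (n * l)) * y) * (x ^ l * y ^ n) := by rw [c1]
      _ = algebraMap W K (ω ^ (n * l)) * ((y * x ^ l) * y ^ n) := by simp only [mul_assoc]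
      _ = algebraMap W K (ω ^ (n * l)) * ((algebraMap W K (ω ^ l) * (x ^ l * y)) * y ^ n) := by
          rw [h1]
      _ = algebraMap W K (ω ^ (n * l)) * algebraMap W K (ω ^ l) * (x ^ l * (y * y ^ n)) := by
          simp only [mul_assoc]
      _ = algebraMap W K (ω ^ ((n + 1) * l)) * (x ^ l * (y * y ^ n)) := by
          rw [← map_mul, ← pow_add]
          have e : n * l + l = (n + 1) * l := by ring
          rw [e]

theorem y_ff (p : ℕ) (ω : W) (c : Fin p → W) (x y : K)
    (h : y * x = algebraMap W K ω * (x * y)) (n : ℕ) :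
    y ^ n * ff p ω c x 0 = ff p ω c x n * y ^ n := by
  unfold ff
  rw [Finset.mul_sum, Finset.sum_mul]
  refine Finset.sum_congr rfl fun l _ => ?_
  rw [Nat.zero_mul, pow_zero, mul_one]
  have c1 := Algebra.commutes (R := W) (A := K) (c l) (y ^ n)
  calc y ^ n * (algebraMap W K (c l) * x ^ (l : ℕ))
      = (y ^ n * algebraMap W K (c l)) * x ^ (l : ℕ) := by rw [mul_assoc]
    _ = algebraMap W K (c l) * (y ^ n * x ^ (l : ℕ)) := by rw [← c1, mul_assoc]
    _ = algebraMap W K (c l) * (algebraMap W K (ω ^ (n * (l : ℕ))) * (x ^ (l : ℕ) * y ^ n)) := by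
        rw [y_pow_x ω x y h]
    _ = algebraMap W K (c l * ω ^ (n * (l : ℕ))) * x ^ (l : ℕ) * y ^ n := by
        rw [map_mul]
        simp only [mul_assoc]

theorem pow_eq (p : ℕ) (ω : W) (c : Fin p → W) (x y : K)
    (h : y * x = algebraMap W K ω * (x * y)) (n : ℕ) :
    (ff p ω c x 0 * y) ^ n = aeval x ((PP p ω n).map (MvPolynomial.eval c)) * y ^ n := by
  induction n with
  | zero =>
    unfold PP
    simp
  | succ n ih =>
    have e : PP p ω (n + 1) = PP p ω n * gg p ω n := Finset.prod_range_succ _ _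
    rw [e, Polynomial.map_mul, map_mul, ff_eq, pow_succ, ih]
    calc aeval x ((PP p ω n).map (MvPolynomial.eval c)) * y ^ n * (ff p ω c x 0 * y)
        = aeval x ((PP p ω n).map (MvPolynomial.eval c)) * (y ^ n * ff p ω c x 0) * y := by
          simp only [mul_assoc]
      _ = aeval x ((PP p ω n).map (MvPolynomial.eval c)) * (ff p ω c x n * y ^ n) * y := by
          rw [y_ff p ω c x y h]
      _ = aeval x ((PP p ω n).map (MvPolynomial.eval c)) * ff p ω c x n * y ^ (n + 1) := by
          rw [pow_succ]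
          simp only [mul_assoc]

theorem NRF : ST_NRF.{u} := by
  intro W K _ _ _ p ω a b x y hp hω hx hy hyx _ _ _
  have hp0 : p ≠ 0 := hp.ne_zero
  have hex : expand (MvPolynomial (Fin p) W) p (contract p (PP p ω p)) = PP p ω p := by
    ext1 m
    rw [coeff_expand (Nat.pos_of_ne_zero hp0), coeff_contract hp0]
    split_ifs with hm
    · rw [Nat.div_mul_cancel hm]
    · exact (PP_coeff p ω hω m hm).symm
  refine ⟨(contract p (PP p ω p)).eval (MvPolynomial.C a) * MvPolynomial.C b, ?_, ?_⟩
  · have h1 : ((contract p (PP p ω p)).eval (MvPolynomial.C a)).IsHomogeneous p := by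
      rw [Polynomial.eval_eq_sum, Polynomial.sum]
      refine MvPolynomial.IsHomogeneous.sum _ _ _ fun j _ => ?_
      rw [coeff_contract hp0, ← map_pow]
      exact (PP_hom p ω p (j * p)).mul (MvPolynomial.isHomogeneous_C (Fin p) _)
    exact h1.mul (MvPolynomial.isHomogeneous_C (Fin p) _)
  · intro c
    have h1 : (∑ l, algebraMap W K (c l) * x ^ (l : ℕ)) = ff p ω c x 0 := by
      unfold ff
      refine Finset.sum_congr rfl fun l _ => ?_
      rw [Nat.zero_mul, pow_zero, mul_one]
    rw [h1, pow_eq p ω c x y hyx, hy, map_mul, map_mul, MvPolynomial.eval_C]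
    congr 1
    rw [← hex, Polynomial.map_expand, expand_aeval, hx, aeval_algebraMap_apply, hex]
    congr 1
    rw [Polynomial.coe_aeval_eq_eval, Polynomial.eval_map]
    have h2 := Polynomial.eval₂_at_apply (p := contract p (PP p ω p)) (MvPolynomial.eval c)
      (MvPolynomial.C a)
    rw [MvPolynomial.eval_C] at h2
    exact h2

end

end Pool.Agent.Helper52.KZ
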